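import Pool.Agent.H343.AN.StE

set_option autoImplicit false
set_option linter.unusedSectionVars false

/-! D0: shortening a closed polygon (project AN of helper343). -/

namespace Pool.Agent.H21.AN

open Pool.Agent.TH68 Pool.Agent.Helper97.Hyp Pool.Agent.H343.AN

theorem poly : S_poly := by
  intro Γ _ W 𝒜 _ Y R hM n hn hn1 v k hk hk6 hv
  have hδ := Y.hδ
  have hθ := Y.hθ
  obtain ⟨A, r, hr, hr1, hw⟩ := R.wind n hn hn1 (v 0)
  obtain ⟨q₁, hq₁⟩ := Y.proj A (v 0)
  obtain ⟨q₂, hq₂⟩ := Y.proj A (n • v 0)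
  have h1 : dist (r • q₁) q₂ ≤ 51 * Y.θ := by
    have := le_pd_of_proj (IsProj.fix Y (R.fix A r hr) hq₁) hq₂
    linarith
  have h2 := R.far A r hr hr1 q₁ hq₁.1
  have h3' : R.ρ - 51 * Y.θ ≤ dist q₁ q₂ := by
    have := dist_triangle q₁ q₂ (r • q₁)
    rw [dist_comm q₂] at this
    linarith
  have h3'' : R.ρ - 52 * Y.θ ≤ pd (Y.S A) (v 0) (v k) := by
    have := le_pd_of_proj hq₁ hq₂
    rw [hv]
    linarith
  have h3 : 1900 * Y.θ ≤ dist q₁ q₂ := by
    have : (0 : ℝ) ≤ Y.θ := by linarith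
    have h : (10 : ℝ) ^ 6 * Y.θ = 1000000 * Y.θ := by norm_num
    linarith
  -- every vertex is far from one of the two ends
  have key : ∀ u : Pt W, exc (v 0) u q₁ ≤ 4 * Y.θ ∨ exc u (n • v 0) q₂ ≤ 4 * Y.θ := by
    intro u
    obtain ⟨u', hu'⟩ := Y.proj A u
    rcases lt_or_ge (Y.θ + Y.δ) (dist q₁ u') with h4 | h4
    · left
      have h5 := far_of_proj Y.hyp hq₁ hu' h4
      have h6 := dist_triangle q₁ u' u
      rw [dist_comm u' u] at h6
      unfold exc
      linarith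
    · right
      have h4' : Y.θ + Y.δ < dist u' q₂ := by
        have := dist_triangle q₁ u' q₂
        linarith
      have h5 := far_of_proj Y.hyp hu' hq₂ h4'
      have h6 := dist_triangle u u' q₂
      rw [dist_comm (n • v 0) q₂] at h5
      unfold exc
      linarith
  refine ⟨A, r, hr, q₁, q₂, hq₁, by rw [hv]; exact hq₂, hr1, h1, h3', h3'', ?_⟩
  have hkR : (k : ℝ) ≤ 6 := by exact_mod_cast hk6
  have hθ0 : 0 ≤ Y.θ := by linarith
  classical
  have hex : ∃ i, exc (v 0) (v i) q₁ ≤ 4 * Y.θ := by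
    refine ⟨k, ?_⟩
    rw [hv]
    have h5 := far_of_proj Y.hyp hq₁ hq₂ (by linarith)
    have h6 := dist_triangle q₁ q₂ (n • v 0)
    rw [dist_comm q₂ (n • v 0)] at h6
    unfold exc
    linarith
  have hik : Nat.find hex ≤ k := by
    apply Nat.find_min'
    rw [hv]
    have h5 := far_of_proj Y.hyp hq₁ hq₂ (by linarith)
    have h6 := dist_triangle q₁ q₂ (n • v 0)
    rw [dist_comm q₂ (n • v 0)] at h6
    unfold exc
    linarith
  have hi := Nat.find_spec hex
  have hmin : ∀ j < Nat.find hex, exc (v j) (n • v 0) q₂ ≤ 4 * Y.θ := by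
    intro j hj
    rcases key (v j) with h | h
    · exact absurd h (Nat.find_min hex hj)
    · exact h
  set i := Nat.find hex with hi_def
  have hpath : ∀ j, j < k → exc (v j) (n • v 0) q₂ ≤ 4 * Y.θ → ∃ b, j ≤ b ∧ b < k ∧
      exc (v b) (v (b + 1)) q₂ ≤ 16 * Y.θ := by
    intro j hj h
    obtain ⟨b, hb, h4⟩ := exc_path Y.hyp (fun t => v (j + t)) q₂ (k - j) (by omega)
    simp only [add_zero, Nat.add_sub_cancel' hj.le] at h4
    refine ⟨j + b, by omega, by omega, ?_⟩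
    rw [hv] at h4
    have h5 : ((k - j : ℕ) : ℝ) ≤ 6 := by
      have : k - j ≤ 6 := by omega
      exact_mod_cast this
    have h6 : (0 : ℝ) ≤ ((k - j : ℕ) : ℝ) := Nat.cast_nonneg _
    have h7 : 2 * Y.δ * ((k - j : ℕ) : ℝ) ≤ 12 * Y.θ := by nlinarith
    rw [add_assoc]
    linarith
  rcases Nat.eq_zero_or_pos i with hi0 | hi0
  · have h4 : exc (v 0) (n • v 0) q₂ ≤ 4 * Y.θ := by
      have h5 := far_of_proj Y.hyp hq₁ hq₂ (by linarith)
      have h6 := dist_triangle (v 0) q₁ q₂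
      rw [dist_comm (n • v 0) q₂] at h5
      unfold exc
      linarith
    obtain ⟨b, -, hb, hb'⟩ := hpath 0 hk h4
    refine ⟨0, b, by omega, hb, ?_, hb'⟩
    rw [hi0] at hi
    have h5 := exc_le_two (v 0) (v (0 + 1)) q₁
    unfold exc at hi
    rw [dist_self, dist_comm q₁] at hi
    linarith
  · obtain ⟨b, hb, hb1, hb2⟩ := hpath (i - 1) (by omega) (hmin (i - 1) (by omega))
    obtain ⟨a, ha, ha'⟩ := exc_path Y.hyp v q₁ i hi0
    refine ⟨a, b, by omega, hb1, ?_, hb2⟩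
    have h5 : (i : ℝ) ≤ 6 := by
      have : i ≤ 6 := by omega
      exact_mod_cast this
    have h6 : (0 : ℝ) ≤ (i : ℝ) := Nat.cast_nonneg _
    have h7 : 2 * Y.δ * (i : ℝ) ≤ 12 * Y.θ := by nlinarith
    linarith

end Pool.Agent.H21.AN
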