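import Pool.Agent.H343.AN.StE

set_option autoImplicit false
set_option linter.unusedSectionVars false

/-! D1: bigons of the quotient (project AN of helper343). -/

namespace Pool.Agent.H21.AN

open Pool.Agent.TH68 Pool.Agent.Helper97.Hyp Pool.Agent.H343.AN

theorem d1 : ToolB → S_d1 := by
  intro TB Γ _ W 𝒜 _ Y R hM o u v p m
  have hδ := Y.hδ
  have hθ := Y.hθ
  have hθ0 : 0 ≤ Y.θ := by linarith
  have hρ : 1000000 * Y.θ ≤ R.ρ := by
    have h : (10 : ℝ) ^ 6 * Y.θ = 1000000 * Y.θ := by norm_num
    linarith
  have main : ∀ k : ℕ, ∀ (u v p : Pt W) (m : Γ), nd o u + nd o v = k →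
      m ∈ R.N → Red R.N o u → Red R.N o v → dist u (m • v) ≤ 500 * Y.θ → exc o u p = 0 →
      (∃ m' ∈ R.N, ∃ q, exc o v q = 0 ∧ dist p (m' • q) ≤ 2100 * Y.θ) ∨
      (∃ B, ∃ m' ∈ R.N, ∃ y z, exc o u y = 0 ∧ exc o v z = 0 ∧
        R.ρ / 2 - 600 * Y.θ ≤ pd (Y.S B) o y ∧
        R.ρ / 2 - 600 * Y.θ ≤ pd (Y.S B) (m' • o) (m' • z) ∧
        ∃ s ∈ Y.S B, dist p s ≤ 20 * Y.θ) := by
    intro k
    induction k using Nat.strong_induction_on with
    | _ k ih =>
    intro u v p m hk hm hu hv huv hp
    by_cases hm1 : m = 1
    · subst hm1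
      rw [one_smul] at huv
      left
      rcases exc_split Y.hyp o u v p with h | h
      · obtain ⟨q, hq, hq'⟩ := near_geod Y.hyp h
        exact ⟨1, R.N.one_mem, q, hq, by rw [one_smul]; linarith⟩
      · refine ⟨1, R.N.one_mem, v, exc_right _ _, ?_⟩
        rw [one_smul]
        have h1 := dist_nonneg (x := p) (y := u)
        unfold exc at h
        rw [dist_comm v p, dist_comm v u] at h
        unfold exc at hp
        linarith
    · obtain ⟨B, r, hr, hr1, hw1, hw2⟩ := TB.wind Y R hm hm1 o
      obtain ⟨q₁, hq₁⟩ := Y.proj B o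
      obtain ⟨q₂, hq₂⟩ := Y.proj B (m • o)
      obtain ⟨u', hu'⟩ := Y.proj B u
      obtain ⟨v', hv'⟩ := Y.proj B (m • v)
      have hrN : r ∈ R.N := R.G_le B hr
      have hd : dist (r • q₁) q₂ ≤ 51 * Y.θ := by
        have := le_pd_of_proj (IsProj.fix Y (R.fix B r hr) hq₁) hq₂
        linarith
      have hne := Y.Sne B
      have hpd1 := pd_tri hne o u (m • o)
      have hpd2 := pd_tri hne u (m • v) (m • o)
      have hpd3 := pd_le_dist hne u (m • v)
      have hpd4 := TB.redpd Y R hM B le_rfl (Redu.of_red hu le_rfl)
      have hpd5 := TB.redpd Y R hM B le_rfl (Redu.of_red (hv.smul m) le_rfl)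
      have hsy := pd_symm hne (m • v) (m • o)
      -- both halves follow the axis
      have hA1 : R.ρ / 2 - 557 * Y.θ ≤ pd (Y.S B) o u := by linarith
      have hA2 : R.ρ / 2 - 557 * Y.θ ≤ pd (Y.S B) (m • o) (m • v) := by linarith
      obtain ⟨n1, n2, n3⟩ := TB.near Y B hq₁ hu' (by linarith)
      obtain ⟨n1', n2', n3'⟩ := TB.near Y B hq₂ hv' (by linarith)
      -- the point `y`
      have hy : ∃ y : Pt W, dist q₁ y ≤ 8 * Y.θ ∧ exc o u y = 0 ∧
          (exc o y p = 0 ∨ exc y u p = 0) := by
        rcases exc_split Y.hyp o u p q₁ with h3 | h3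
        · obtain ⟨q, hq, hq'⟩ := near_geod Y.hyp h3
          have h4 := exc_zero_trans' hp hq
          exact ⟨q, by linarith, h4.1, Or.inr h4.2⟩
        · obtain ⟨q, hq, hq'⟩ := near_geod Y.hyp h3
          have h4 := exc_zero_trans hp hq
          exact ⟨q, by linarith, h4.1, Or.inl h4.2⟩
      obtain ⟨y, hy1, hy2, hy3⟩ := hy
      obtain ⟨t, ht, ht'⟩ := near_geod Y.hyp n2'
      rcases hy3 with hy3 | hy3
      · -- induction
        set z := m⁻¹ • t with hz
        have hmz : m • z = t := by rw [hz, smul_inv_smul]
        have hoz : exc o v z = 0 := by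
          rw [← exc_smul m, hmz]
          exact ht
        have hyz : dist y ((r⁻¹ * m) • z) ≤ 500 * Y.θ := by
          have h1 : dist y ((r⁻¹ * m) • z) = dist (r • y) t := by
            rw [mul_smul, hmz, ← dist_smul r y, smul_inv_smul]
          have h2 := dist_triangle4 (r • y) (r • q₁) q₂ t
          rw [dist_smul, dist_comm y q₁] at h2
          rw [h1]
          linarith
        have hlt : nd o y + nd o z < k := by
          have h1 := dist_triangle o q₁ y
          have h2 := dist_nonneg (x := u) (y := u')
          have h3 := dist_nonneg (x := z) (y := v)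
          have h4 : dist o y + dist o z < dist o u + dist o v := by
            unfold exc at hoz
            linarith
          rw [dist_eq_nd, dist_eq_nd, dist_eq_nd, dist_eq_nd] at h4
          have h5 : nd o y + nd o z < nd o u + nd o v := by exact_mod_cast h4
          omega
        rcases ih _ hlt y z p (r⁻¹ * m) rfl (R.N.mul_mem (R.N.inv_mem hrN) hm) (hu.left hy2)
          (hv.left hoz) hyz hy3 with ⟨m', hm', q, hq, hq'⟩ |
            ⟨B', m', hm', y', z', hy', hz', h1, h2, s, hs, hs'⟩
        · exact Or.inl ⟨m', hm', q, (exc_zero_trans' hoz hq).1, hq'⟩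
        · exact Or.inr ⟨B', m', hm', y', z', (exc_zero_trans' hy2 hy').1,
            (exc_zero_trans' hoz hz').1, h1, h2, s, hs, hs'⟩
      · -- the point is beyond the entry of the axis
        have hab : dist u' v' ≤ 501 * Y.θ := by
          have := le_pd_of_proj hu' hv'
          linarith
        rcases exc_split Y.hyp o u u' p with h3 | h3
        · -- between `o` and `u'`
          right
          refine ⟨B, m, hm, u, v, exc_right _ _, exc_right _ _, by linarith, by linarith, ?_⟩
          rcases exc_split Y.hyp o u' q₁ p with h4 | h4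
          · refine ⟨q₁, hq₁.1, ?_⟩
            have h5 := (exc_zero_trans hy2 hy3).2
            have h6 := dist_triangle o y q₁
            rw [dist_comm y q₁] at h6
            have h7 := dist_nonneg (x := y) (y := p)
            have h4' : exc o q₁ p ≤ 4 * Y.θ := by linarith
            unfold exc at h4' h5
            linarith
          · obtain ⟨s, hs⟩ := Y.proj B p
            refine ⟨s, hs.1, ?_⟩
            have h5 := hs.2 q₁ hq₁.1
            have h6 := hs.2 u' hu'.1
            have h7 := dist_triangle q₁ s u'
            rw [dist_comm q₁ s] at h7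
            have h4' : exc q₁ u' p ≤ 4 * Y.θ := by linarith
            unfold exc at h4'
            rw [dist_comm q₁ p] at h4'
            linarith
        · -- beyond `u'`
          left
          have h4 := exc_move_left u' v' u p
          have h5 := exc_move_right v' u (m • v) p
          have h6 := dist_triangle (m • o) v' p
          have h7 : exc (m • o) (m • v) p ≤ 2008 * Y.θ := by
            unfold exc at h3 h4 h5 n3' hp ⊢
            linarith
          obtain ⟨t', ht1, ht2⟩ := near_geod Y.hyp h7
          refine ⟨m, hm, m⁻¹ • t', ?_, ?_⟩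
          · rw [← exc_smul m, smul_inv_smul]
            exact ht1
          · rw [smul_inv_smul]
            linarith
  exact main _ u v p m rfl

end Pool.Agent.H21.AN
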